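import Pool.Agent.N908.FR.Part
import Pool.Agent.Results.MP_600e55_nt.SymbolPartitions

set_option autoImplicit false

open Module Submodule Function

namespace Pool.Agent.N908.FR

open Pool.Agent.Results.MP_600e55_nt.SymbolPartitions

/-- a Steinberg symbol on `F` with values in `ℤ/p`: a bimultiplicative function `c` with
`c(x,y) = 0` if `x + y = 1` -/
structure IsSymbol (p : ℕ) (F : Type) [Field F] (c : Fˣ → Fˣ → ZMod p) : Prop where
  mul_left : ∀ a b x : Fˣ, c (a * b) x = c a x + c b x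
  mul_right : ∀ x a b : Fˣ, c x (a * b) = c x a + c x b
  steinberg : ∀ x y : Fˣ, (x : F) + y = 1 → c x y = 0

section

variable {p : ℕ} [Fact p.Prime] {F : Type} [Field F] {c : Fˣ → Fˣ → ZMod p}

lemma IsSymbol.one_left (h : IsSymbol p F c) (x : Fˣ) : c 1 x = 0 := by
  have := h.mul_left 1 1 x
  rw [one_mul] at this
  simpa using this

lemma IsSymbol.one_right (h : IsSymbol p F c) (x : Fˣ) : c x 1 = 0 := by
  have := h.mul_right x 1 1
  rw [one_mul] at this
  simpa using this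

lemma IsSymbol.pow_left (h : IsSymbol p F c) (a x : Fˣ) (n : ℕ) : c (a ^ n) x = n * c a x := by
  induction n with
  | zero => simp [h.one_left]
  | succ n ih => rw [pow_succ, h.mul_left, ih]; push_cast; ring

lemma IsSymbol.pow_right (h : IsSymbol p F c) (a x : Fˣ) (n : ℕ) : c x (a ^ n) = n * c x a := by
  induction n with
  | zero => simp [h.one_right]
  | succ n ih => rw [pow_succ, h.mul_right, ih]; push_cast; ring

lemma IsSymbol.inv_left (h : IsSymbol p F c) (a x : Fˣ) : c a⁻¹ x = - c a x := by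
  have := h.mul_left a a⁻¹ x
  rw [mul_inv_cancel, h.one_left] at this
  exact (neg_eq_of_add_eq_zero_right this.symm).symm

lemma IsSymbol.inv_right (h : IsSymbol p F c) (a x : Fˣ) : c x a⁻¹ = - c x a := by
  have := h.mul_right x a a⁻¹
  rw [mul_inv_cancel, h.one_right] at this
  exact (neg_eq_of_add_eq_zero_right this.symm).symm

lemma IsSymbol.neg_self (h : IsSymbol p F c) (a : Fˣ) : c a (-a) = 0 := by
  by_cases ha : a = 1
  · rw [ha, h.one_left]
  have ha' : (a : F) ≠ 1 := fun h0 => ha (Units.ext h0)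
  have h1 : (1 : F) - a ≠ 0 := sub_ne_zero.2 (Ne.symm ha')
  have h2 : (1 : F) - (a : F)⁻¹ ≠ 0 := by
    rw [sub_ne_zero]
    intro h0
    exact ha' (by rw [← inv_inv (a : F), ← h0, inv_one])
  set u : Fˣ := Units.mk0 _ h1
  set v : Fˣ := Units.mk0 _ h2
  have e : -a = u * v⁻¹ := by
    rw [eq_mul_inv_iff_mul_eq]
    apply Units.ext
    simp only [Units.val_mul, Units.val_neg, u, v, Units.val_mk0]
    have := a.ne_zero
    field_simp
    ring
  rw [e, h.mul_right, h.inv_right, h.steinberg a u (by simp [u]), zero_add, neg_eq_zero]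
  have h3 := h.steinberg a⁻¹ v (by simp [v])
  rw [h.inv_left, neg_eq_zero] at h3
  exact h3

lemma neg_one_mem (hp2 : p ≠ 2) : (-1 : Fˣ) ∈ powers F p := by
  refine ⟨-1, ?_⟩
  change (-1 : Fˣ) ^ p = -1
  exact ((Fact.out : p.Prime).odd_of_ne_two hp2).neg_one_pow

lemma IsSymbol.of_mem_left (h : IsSymbol p F c) {a : Fˣ} (ha : a ∈ powers F p) (x : Fˣ) :
    c a x = 0 := by
  obtain ⟨t, rfl⟩ := ha
  change c (t ^ p) x = 0
  rw [h.pow_left]
  simp

lemma IsSymbol.of_mem_right (h : IsSymbol p F c) {a : Fˣ} (ha : a ∈ powers F p) (x : Fˣ) :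
    c x a = 0 := by
  obtain ⟨t, rfl⟩ := ha
  change c x (t ^ p) = 0
  rw [h.pow_right]
  simp

lemma IsSymbol.self (h : IsSymbol p F c) (hp2 : p ≠ 2) (a : Fˣ) : c a a = 0 := by
  have h1 := h.neg_self a
  rw [show -a = (-1) * a by simp, h.mul_right, h.of_mem_right (neg_one_mem hp2), zero_add] at h1
  exact h1

lemma IsSymbol.one_add (h : IsSymbol p F c) (hp2 : p ≠ 2) (a b : Fˣ) (hab : (b : F) = 1 + a) :
    c a b = 0 := by
  have h1 := h.steinberg (-a) b (by rw [hab]; simp)
  rw [show -a = (-1) * a by simp, h.mul_left, h.of_mem_left (neg_one_mem hp2), zero_add] at h1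
  exact h1

variable {V : Type} [AddCommGroup V] [Module (ZMod p) V] [FiniteDimensional (ZMod p) V]
  (q : Fˣ → V)

/-- the classes of `a` and `1 + a` -/
def Est (q : Fˣ → V) (x y : V) : Prop := ∃ a b : Fˣ, (b : F) = 1 + a ∧ q a = x ∧ q b = y

lemma exists_form (hp2 : p ≠ 2) {q : Fˣ → V} (hq : ∀ a b, q (a * b) = q a + q b)
    (hs : Surjective q) (hk : ∀ a, q a = 0 ↔ a ∈ powers F p) (h : IsSymbol p F c) :
    ∃ β ∈ Forms (ZMod p) (Est q), ∀ a b, β (q a) (q b) = c a b := by
  have hq1 : q 1 = 0 := (hk 1).2 (one_mem _)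
  have hqi : ∀ a, q a⁻¹ = - q a := fun a => by
    have := hq a a⁻¹
    rw [mul_inv_cancel, hq1] at this
    exact (neg_eq_of_add_eq_zero_right this.symm).symm
  have hdiv : ∀ a b, q a = q b → a * b⁻¹ ∈ powers F p := fun a b hab => by
    rw [← hk, hq, hqi, hab, add_neg_cancel]
  have hl : ∀ a b x, q a = q b → c a x = c b x := fun a b x hab => by
    have h1 := h.of_mem_left (hdiv a b hab) x
    rw [h.mul_left, h.inv_left, ← sub_eq_add_neg, sub_eq_zero] at h1
    exact h1
  have hr : ∀ a b x, q a = q b → c x a = c x b := fun a b x hab => by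
    have h1 := h.of_mem_right (hdiv a b hab) x
    rw [h.mul_right, h.inv_right, ← sub_eq_add_neg, sub_eq_zero] at h1
    exact h1
  set s : V → Fˣ := surjInv hs with hsdef
  have hqs : ∀ x, q (s x) = x := surjInv_eq hs
  let β₁ : V → (V →ₗ[ZMod p] ZMod p) := fun x => AddMonoidHom.toZModLinearMap p
    (AddMonoidHom.mk' (fun y => c (s x) (s y)) fun y z => by
      rw [← h.mul_right]
      exact hr _ _ _ (by rw [hqs, hq, hqs, hqs]))
  have hβ₁ : ∀ x y, β₁ x y = c (s x) (s y) := fun x y => rfl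
  let β : V →ₗ[ZMod p] V →ₗ[ZMod p] ZMod p := AddMonoidHom.toZModLinearMap p
    (AddMonoidHom.mk' β₁ fun x y => by
      refine LinearMap.ext fun z => ?_
      rw [LinearMap.add_apply, hβ₁, hβ₁, hβ₁, ← h.mul_left]
      exact hl _ _ _ (by rw [hqs, hq, hqs, hqs]))
  have hβ : ∀ x y, β x y = c (s x) (s y) := fun x y => rfl
  have hβq : ∀ a b, β (q a) (q b) = c a b := fun a b => by
    rw [hβ, hl _ a _ (hqs _), hr _ b _ (hqs _)]
  refine ⟨β, mem_Forms.2 ⟨fun x => ?_, ?_⟩, hβq⟩
  · rw [hβ]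
    exact h.self hp2 _
  · rintro x y ⟨a, b, hab, rfl, rfl⟩
    rw [hβq]
    exact h.one_add hp2 a b hab

lemma card_symbols (hp2 : p ≠ 2) {q : Fˣ → V} (hq : ∀ a b, q (a * b) = q a + q b)
    (hs : Surjective q) (hk : ∀ a, q a = 0 ↔ a ∈ powers F p) :
    Nat.card {c : Fˣ → Fˣ → ZMod p // IsSymbol p F c} ≤
      p ^ finrank (ZMod p) (Forms (ZMod p) (Est q)) := by
  have h1 : Nat.card (Forms (ZMod p) (Est q)) =
      p ^ finrank (ZMod p) (Forms (ZMod p) (Est q)) := by
    letI : AddCommGroup (Forms (ZMod p) (Est q)) := Module.addCommMonoidToAddCommGroup (ZMod p)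
    have h0 := Module.natCard_eq_pow_finrank (K := ZMod p) (V := Forms (ZMod p) (Est q))
    rwa [Nat.card_zmod] at h0
  rw [← h1]
  have : Finite (Forms (ZMod p) (Est q)) := Module.finite_of_finite (ZMod p)
  choose f hf hf' using fun c : {c : Fˣ → Fˣ → ZMod p // IsSymbol p F c} =>
    exists_form hp2 hq hs hk c.2
  refine Nat.card_le_card_of_injective (fun c => (⟨f c, hf c⟩ : Forms (ZMod p) (Est q))) ?_
  intro c c' h
  have h2 : f c = f c' := congrArg Subtype.val h
  apply Subtype.ext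
  funext a b
  rw [← hf', ← hf', h2]

/-- the subgroup of `F*` which belongs to a subspace -/
def sg {q : Fˣ → V} (hq : ∀ a b, q (a * b) = q a + q b) (K : Submodule (ZMod p) V) :
    Subgroup Fˣ where
  carrier := {a | q a ∈ K}
  mul_mem' := by
    intro a b ha hb
    change q (a * b) ∈ K
    rw [hq]
    exact add_mem ha hb
  one_mem' := by
    have : q 1 = 0 := by
      have := hq 1 1
      rw [one_mul] at this
      simpa using this
    change q 1 ∈ K
    rw [this]
    exact zero_mem _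
  inv_mem' := by
    intro a ha
    have h1 : q 1 = 0 := by
      have := hq 1 1
      rw [one_mul] at this
      simpa using this
    have h2 := hq a a⁻¹
    rw [mul_inv_cancel, h1] at h2
    change q a⁻¹ ∈ K
    rw [← neg_eq_of_add_eq_zero_right h2.symm]
    exact neg_mem ha

lemma mem_sg {q : Fˣ → V} (hq : ∀ a b, q (a * b) = q a + q b) {K : Submodule (ZMod p) V}
    {a : Fˣ} : a ∈ sg hq K ↔ q a ∈ K := Iff.rfl

lemma relIndex_sg {q : Fˣ → V} (hq : ∀ a b, q (a * b) = q a + q b)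
    (hs : Surjective q) (hk : ∀ a, q a = 0 ↔ a ∈ powers F p) (K : Submodule (ZMod p) V) :
    (powers F p).relIndex (sg hq K) = p ^ finrank (ZMod p) K := by
  let f : sg hq K →* Multiplicative V :=
    MonoidHom.mk' (fun a => Multiplicative.ofAdd (q a)) fun a b => by
      rw [← ofAdd_add, ← hq]
      rfl
  have h1 : (powers F p).subgroupOf (sg hq K) = f.ker := by
    ext a
    rw [Subgroup.mem_subgroupOf, MonoidHom.mem_ker, ← hk]
    rfl
  have h2 : Nat.card f.range = Nat.card K := by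
    refine Nat.card_congr
      { toFun := fun x => ⟨Multiplicative.toAdd x.1, ?_⟩
        invFun := fun x => ⟨Multiplicative.ofAdd x.1, ?_⟩
        left_inv := fun x => rfl
        right_inv := fun x => rfl }
    · obtain ⟨a, ha⟩ := x.2
      rw [← ha]
      exact a.2
    · obtain ⟨a, ha⟩ := hs x.1
      exact ⟨⟨a, by rw [mem_sg, ha]; exact x.2⟩, congrArg Multiplicative.ofAdd ha⟩
  rw [Subgroup.relIndex, h1, Subgroup.index_ker, h2,
    Module.natCard_eq_pow_finrank (K := ZMod p), Nat.card_zmod]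

/-- the valuation ring -/
theorem main (hp2 : p ≠ 2) (hζ : ∃ ζ : F, IsPrimitiveRoot ζ p) (hfin : (powers F p).index ≠ 0)
    {q : Fˣ → V} (hq : ∀ a b, q (a * b) = q a + q b)
    (hs : Surjective q) (hk : ∀ a, q a = 0 ↔ a ∈ powers F p)
    (hr : finrank (ZMod p) (Rel (k := ZMod p) (Est q) ⊤) + 2 ≤ finrank (ZMod p) V) :
    (∃ O : ValuationSubring F, IsCompatible p O ∧
      (powers F p).relIndex (O.unitGroup ⊔ powers F p) ≤
        p ^ (1 + finrank (ZMod p) (Rel (k := ZMod p) (Est q) ⊤))) ∧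
    ∀ K : IntermediateField F (AlgebraicClosure F), IsMaximalPExtension p K →
      IsDecompositionGroup (⊤ : Subgroup (↥K ≃ₐ[F] ↥K)) ∧ ConclusionOfQ1 p K := by
  have hp := (Fact.out : p.Prime)
  obtain ⟨P, hP1, hP2, hP3, hP4, hP5⟩ := exists_part (Est q) hr
  have hle : ∀ K : Submodule (ZMod p) V, powers F p ≤ sg hq K := fun K a ha => by
    rw [mem_sg, (hk a).2 ha]
    exact zero_mem _
  have hpart : IsPartition F p (sg hq '' P) := by
    refine ⟨?_, ?_, ?_, ?_⟩
    · rintro _ ⟨K, -, rfl⟩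
      exact hle K
    · rintro _ ⟨K, hK, rfl⟩ h0
      refine hP1 K hK (eq_top_iff.2 fun x _ => ?_)
      obtain ⟨a, rfl⟩ := hs x
      rw [← mem_sg hq, h0]
      exact Subgroup.mem_top _
    · intro a
      obtain ⟨K, hK, h⟩ := hP2 (q a)
      exact ⟨_, ⟨K, hK, rfl⟩, h⟩
    · rintro _ ⟨K, hK, rfl⟩ _ ⟨K', hK', rfl⟩ hne
      have h1 := hP3 K hK K' hK' (fun h => hne (by rw [h]))
      refine le_antisymm ?_ (le_inf (hle K) (hle K'))
      rintro a ⟨h2, h3⟩
      rw [← hk, ← mem_bot (ZMod p), ← h1]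
      exact ⟨h2, h3⟩
  have hresp : RespectsSums p (sg hq '' P) := by
    rintro x v hx hv _ ⟨K, hK, rfl⟩ hxK
    exact hP4 K hK (q x) (q v) ⟨x, v, hv, rfl, rfl⟩ (fun h0 => hx ((hk x).1 h0)) hxK
  obtain ⟨⟨K', ⟨K, hK, rfl⟩, O, hO, hc⟩, h2⟩ :=
    (result p hp2 F hζ hfin).1 (sg hq '' P) hpart hresp
  refine ⟨⟨O, hc, ?_⟩, h2⟩
  have h3 : O.unitGroup ⊔ powers F p ≤ sg hq K := sup_le hO (hle K)
  have h4 := Subgroup.relIndex_mul_relIndex (powers F p) (O.unitGroup ⊔ powers F p) (sg hq K)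
    le_sup_right h3
  rw [relIndex_sg hq hs hk] at h4
  have h5 : (powers F p).relIndex (O.unitGroup ⊔ powers F p) ≤ p ^ finrank (ZMod p) K :=
    Nat.le_of_dvd (pow_pos hp.pos _) (Dvd.intro _ h4)
  refine h5.trans (Nat.pow_le_pow_right hp.pos ((hP5 K hK).trans ?_))
  exact Nat.add_le_add_left (finrank_mono (Rel_mono _ le_top)) _

end

end Pool.Agent.N908.FR
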