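import Mathlib

/-!
Linear algebra for `MP_600e55_nt.FewRelations`: spaces of alternating tensors spanned by few
decomposable ones, and partitions of the vector space into subspaces.
-/

set_option autoImplicit false

open Module Submodule

namespace Pool.Agent.N908.FR

variable {k V : Type*} [Field k] [AddCommGroup V] [Module k V]

/-- the linear map `f ↦ f(a) b - f(b) a` from the dual space to `V`, which stands for `a ∧ b` -/
noncomputable def w (a b : V) : Dual k V →ₗ[k] V :=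
  (Dual.eval k V a).smulRight b - (Dual.eval k V b).smulRight a

lemma w_apply (a b : V) (f : Dual k V) : w a b f = f a • b - f b • a := by
  simp [w]

/-- the alternating maps from the dual space to `V` with values in `K` -/
def W (K : Submodule k V) : Submodule k (Dual k V →ₗ[k] V) where
  carrier := {φ | (∀ f : Dual k V, f (φ f) = 0) ∧ ∀ f : Dual k V, φ f ∈ K}
  add_mem' := by
    rintro a b ⟨ha, ha'⟩ ⟨hb, hb'⟩
    exact ⟨fun f => by simp [ha f, hb f], fun f => add_mem (ha' f) (hb' f)⟩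
  zero_mem' := ⟨fun f => by simp, fun f => by simp⟩
  smul_mem' := by
    rintro c a ⟨ha, ha'⟩
    exact ⟨fun f => by simp [ha f], fun f => smul_mem _ _ (ha' f)⟩

lemma mem_W {K : Submodule k V} {φ : Dual k V →ₗ[k] V} :
    φ ∈ W K ↔ (∀ f : Dual k V, f (φ f) = 0) ∧ ∀ f : Dual k V, φ f ∈ K := Iff.rfl

lemma w_mem {K : Submodule k V} {a b : V} (ha : a ∈ K) (hb : b ∈ K) : w a b ∈ W K := by
  refine mem_W.2 ⟨fun f => ?_, fun f => ?_⟩
  · rw [w_apply]
    simp [mul_comm]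
  · rw [w_apply]
    exact sub_mem (smul_mem _ _ hb) (smul_mem _ _ ha)

lemma W_mono {K L : Submodule k V} (h : K ≤ L) : W K ≤ W L := by
  intro φ hφ
  rw [mem_W] at hφ ⊢
  exact ⟨hφ.1, fun f => h (hφ.2 f)⟩

lemma W_inf (K L : Submodule k V) : W K ⊓ W L = W (K ⊓ L) := by
  ext φ
  simp only [mem_inf, mem_W, forall_and]
  tauto

lemma W_bot : W (⊥ : Submodule k V) = ⊥ := by
  rw [eq_bot_iff]
  intro φ hφ
  rw [mem_W] at hφ
  rw [mem_bot]
  ext f
  simpa using hφ.2 f

lemma skew {φ : Dual k V →ₗ[k] V} (h : ∀ f : Dual k V, f (φ f) = 0) (f g : Dual k V) :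
    g (φ f) = - f (φ g) := by
  have h1 := h (f + g)
  simp only [map_add, LinearMap.add_apply, h f, h g, zero_add, add_zero] at h1
  exact eq_neg_of_add_eq_zero_left h1

lemma apply_eq_zero {K : Submodule k V} {φ : Dual k V →ₗ[k] V} (h : φ ∈ W K) {f : Dual k V}
    (hf : ∀ x ∈ K, f x = 0) : φ f = 0 := by
  rw [mem_W] at h
  rw [← forall_dual_apply_eq_zero_iff k]
  intro g
  rw [skew h.1 f g, hf _ (h.2 g), neg_zero]

lemma exists_dual {A B : Submodule k V} (h : A ⊓ B = ⊥) (f : Dual k V) :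
    ∃ g : Dual k V, (∀ x ∈ A, g x = f x) ∧ ∀ x ∈ B, g x = 0 := by
  obtain ⟨A', hA, hc⟩ := (disjoint_iff.2 h).exists_isCompl
  refine ⟨f ∘ₗ A'.subtype ∘ₗ A'.projectionOnto B hc, fun x hx => ?_, fun x hx => ?_⟩
  · have h1 : A'.projectionOnto B hc x = ⟨x, hA hx⟩ :=
      Submodule.projectionOnto_apply_left hc ⟨x, hA hx⟩
    rw [LinearMap.comp_apply, LinearMap.comp_apply, h1]
    rfl
  · have h1 : A'.projectionOnto B hc x = 0 :=
      (Submodule.projectionOnto_apply_eq_zero_iff hc (x := x)).2 hx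
    rw [LinearMap.comp_apply, LinearMap.comp_apply, h1]
    simp

lemma split {A B T : Submodule k V} (h : A ⊓ B = ⊥) {α β : Dual k V →ₗ[k] V} (hα : α ∈ W A)
    (hβ : β ∈ W B) (hs : α + β ∈ W T) : α ∈ W (T ⊓ A) ∧ β ∈ W (T ⊓ B) := by
  have hα' := mem_W.1 hα
  have hβ' := mem_W.1 hβ
  have hs' := mem_W.1 hs
  refine ⟨mem_W.2 ⟨hα'.1, fun f => mem_inf.2 ⟨?_, hα'.2 f⟩⟩,
    mem_W.2 ⟨hβ'.1, fun f => mem_inf.2 ⟨?_, hβ'.2 f⟩⟩⟩
  · obtain ⟨g, h1, h2⟩ := exists_dual h f
    have h3 : α f = α g := by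
      have := apply_eq_zero hα (f := f - g) (fun x hx => by simp [h1 x hx])
      rwa [map_sub, sub_eq_zero] at this
    have h4 := hs'.2 g
    rw [LinearMap.add_apply, apply_eq_zero hβ h2, add_zero, ← h3] at h4
    exact h4
  · obtain ⟨g, h1, h2⟩ := exists_dual ((inf_comm B A).trans h) f
    have h3 : β f = β g := by
      have := apply_eq_zero hβ (f := f - g) (fun x hx => by simp [h1 x hx])
      rwa [map_sub, sub_eq_zero] at this
    have h4 := hs'.2 g
    rw [LinearMap.add_apply, apply_eq_zero hα h2, zero_add, ← h3] at h4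
    exact h4

lemma w_not_mem {A B : Submodule k V} (h : A ⊓ B = ⊥) {x y : V} (hx : x ∈ A) (hy : y ∈ B)
    (hx0 : x ≠ 0) (hy0 : y ≠ 0) : w x y ∉ W A ⊔ W B := by
  intro hw
  obtain ⟨α, hα, β, hβ, he⟩ := mem_sup.1 hw
  obtain ⟨f, hf⟩ : ∃ f : Dual k V, f x ≠ 0 := by
    by_contra hcon
    push Not at hcon
    exact hx0 ((forall_dual_apply_eq_zero_iff k x).1 hcon)
  obtain ⟨g, h1, h2⟩ := exists_dual h f
  have h3 := congrArg (fun φ : Dual k V →ₗ[k] V => φ g) he
  simp only [LinearMap.add_apply, w_apply, apply_eq_zero hβ h2, add_zero, h2 y hy, zero_smul,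
    sub_zero] at h3
  have h4 : g x • y ∈ A := h3 ▸ (mem_W.1 hα).2 g
  rw [h1 x hx] at h4
  have h5 : y ∈ A := (smul_mem_iff _ hf).1 h4
  exact hy0 ((mem_bot k).1 (h ▸ ⟨h5, hy⟩))

lemma W_line {x : V} : W (span k {x}) = (⊥ : Submodule k (Dual k V →ₗ[k] V)) := by
  rw [eq_bot_iff]
  intro φ hφ
  have hφ' := mem_W.1 hφ
  rw [mem_bot]
  ext f
  simp only [LinearMap.zero_apply]
  by_cases hf : f x = 0
  · refine apply_eq_zero hφ fun y hy => ?_
    obtain ⟨c, rfl⟩ := mem_span_singleton.1 hy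
    simp [hf]
  · obtain ⟨c, hc⟩ := mem_span_singleton.1 (hφ'.2 f)
    have h1 := hφ'.1 f
    rw [← hc] at h1 ⊢
    simp only [map_smul, smul_eq_mul, mul_eq_zero] at h1
    rcases h1 with h1 | h1
    · simp [h1]
    · exact absurd h1 hf

end Pool.Agent.N908.FR
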