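import Pool.Agent.N908.FR.Rk

set_option autoImplicit false

open Module Submodule

namespace Pool.Agent.N908.FR

variable {k V : Type*} [Field k] [AddCommGroup V] [Module k V] [FiniteDimensional k V]

/-- the span of the tensors `x ∧ y`, `E x y`, `x, y ∈ K` -/
def Rel (E : V → V → Prop) (K : Submodule k V) : Submodule k (Dual k V →ₗ[k] V) :=
  span k {φ | ∃ x ∈ K, ∃ y ∈ K, E x y ∧ φ = w x y}

omit [FiniteDimensional k V] in
lemma Rel_le (E : V → V → Prop) (K : Submodule k V) : Rel E K ≤ W K := by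
  unfold Rel
  rw [span_le]
  rintro φ ⟨x, hx, y, hy, -, rfl⟩
  exact w_mem hx hy

omit [FiniteDimensional k V] in
lemma Rel_mono (E : V → V → Prop) {K L : Submodule k V} (h : K ≤ L) :
    Rel (k := k) E K ≤ Rel E L := by
  refine span_mono ?_
  rintro φ ⟨x, hx, y, hy, h1, h2⟩
  exact ⟨x, h hx, y, h hy, h1, h2⟩

omit [FiniteDimensional k V] in
lemma w_mem_Rel {E : V → V → Prop} {K : Submodule k V} {x y : V} (hx : x ∈ K) (hy : y ∈ K)
    (h : E x y) : w x y ∈ Rel E K := subset_span ⟨x, hx, y, hy, h, rfl⟩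

/-- **Few relations give a partition into subspaces.** -/
theorem exists_part (E : V → V → Prop) (h : finrank k (Rel (k := k) E ⊤) + 2 ≤ finrank k V) :
    ∃ P : Set (Submodule k V), (∀ K ∈ P, K ≠ ⊤) ∧ (∀ x, ∃ K ∈ P, x ∈ K) ∧
      (∀ K ∈ P, ∀ K' ∈ P, K ≠ K' → K ⊓ K' = ⊥) ∧
      (∀ K ∈ P, ∀ x y, E x y → x ≠ 0 → x ∈ K → y ∈ K) ∧
      ∀ K ∈ P, finrank k K ≤ 1 + finrank k (Rel (k := k) E K) := by
  set G : Submodule k V → Prop := fun K => K ≠ ⊥ ∧ Good K (Rel E K) with hG
  have hline : ∀ x : V, x ≠ 0 → G (span k {x}) := by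
    intro x hx
    refine ⟨by rwa [Ne, span_singleton_eq_bot], fun I hI hI0 => ?_⟩
    have h1 : I = span k {x} := by
      apply eq_of_le_of_finrank_le hI
      rw [finrank_span_singleton hx]
      exact fr_pos hI0
    rw [h1]
    exact Nat.add_le_add_left (finrank_mono le_sup_right) _
  have hmax : ∀ x : V, x ≠ 0 → ∃ K, x ∈ K ∧ Maximal G K := by
    intro x hx
    obtain ⟨K, h1, h2⟩ := exists_maximal_ge_of_wellFoundedGT G _ (hline x hx)
    exact ⟨K, h1 (mem_span_singleton_self x), h2⟩
  have hdisj : ∀ K, Maximal G K → ∀ K', Maximal G K' → K ≠ K' → K ⊓ K' = ⊥ := by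
    intro K hK K' hK' hne
    by_contra hcon
    have h1 : G (K ⊔ K') := by
      refine ⟨fun h0 => hK.prop.1 ?_, ?_⟩
      · rw [eq_bot_iff] at h0 ⊢
        exact le_sup_left.trans h0
      · exact (goodB hK.prop.2 hK'.prop.2 (Rel_le E K) (Rel_le E K') hcon).mono
          (sup_le (Rel_mono E le_sup_left) (Rel_mono E le_sup_right))
    have h2 := hK.eq_of_ge h1 le_sup_left
    have h3 := hK'.eq_of_ge h1 le_sup_right
    exact hne (h2.symm.trans h3)
  obtain ⟨x₀, hx₀⟩ : ∃ x : V, x ≠ 0 := by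
    by_contra hcon
    push Not at hcon
    have : finrank k V = 0 := by
      rw [finrank_zero_iff]
      exact ⟨fun a b => (hcon a).trans (hcon b).symm⟩
    omega
  refine ⟨{K | Maximal G K}, ?_, ?_, ?_, ?_, ?_⟩
  · intro K hK h1
    have h2 := hK.prop.2.le hK.prop.1
    rw [h1, finrank_top] at h2
    omega
  · intro x
    by_cases hx : x = 0
    · obtain ⟨K, -, hK⟩ := hmax x₀ hx₀
      exact ⟨K, hK, hx ▸ zero_mem _⟩
    · obtain ⟨K, h1, hK⟩ := hmax x hx
      exact ⟨K, hK, h1⟩
  · intro K hK K' hK' hne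
    exact hdisj K hK K' hK' hne
  · intro K hK x y hE hx0 hx
    by_cases hy0 : y = 0
    · rw [hy0]
      exact zero_mem _
    obtain ⟨K', hy, hK'⟩ := hmax y hy0
    by_cases hne : K = K'
    · rwa [hne]
    exfalso
    have h0 := hdisj K hK K' hK' hne
    have h1 : G (K ⊔ K') := by
      refine ⟨fun h0 => hK.prop.1 ?_, ?_⟩
      · rw [eq_bot_iff] at h0 ⊢
        exact le_sup_left.trans h0
      · exact goodA hK.prop.2 hK'.prop.2 (Rel_le E K) (Rel_le E K') h0 hx hy hx0 hy0
          (sup_le (Rel_mono E le_sup_left) (Rel_mono E le_sup_right))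
          (w_mem_Rel (mem_sup_left hx) (mem_sup_right hy) hE)
    exact hne ((hK.eq_of_ge h1 le_sup_left).symm.trans (hK'.eq_of_ge h1 le_sup_right))
  · intro K hK
    exact hK.prop.2.le hK.prop.1

/-! ### counting -/

lemma sum_split {M : Type*} [AddCommMonoid M] (n : ℕ) (F : Fin n × Fin n → M) :
    ∑ q, F q = ∑ q : {q : Fin n × Fin n // q.1 < q.2}, (F q.1 + F q.1.swap) +
      ∑ i, F (i, i) := by
  classical
  have h1 : ∑ q : {q : Fin n × Fin n // q.1 < q.2}, (F q.1 + F q.1.swap) =
      ∑ q ∈ Finset.univ.filter (fun q : Fin n × Fin n => q.1 < q.2), (F q + F q.swap) :=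
    (Finset.sum_subtype _ (by simp) (fun q => F q + F q.swap)).symm
  rw [h1, Finset.sum_add_distrib]
  have h2 : ∑ q ∈ Finset.univ.filter (fun q : Fin n × Fin n => q.1 < q.2), F q.swap =
      ∑ q ∈ Finset.univ.filter (fun q : Fin n × Fin n => q.2 < q.1), F q := by
    refine Finset.sum_nbij' Prod.swap Prod.swap ?_ ?_ ?_ ?_ ?_ <;> simp
  have h3 : ∑ i, F (i, i) =
      ∑ q ∈ Finset.univ.filter (fun q : Fin n × Fin n => q.1 = q.2), F q := by
    refine Finset.sum_nbij' (fun i => (i, i)) (fun q => q.1) ?_ ?_ ?_ ?_ ?_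
    · simp
    · simp
    · simp
    · rintro ⟨a, b⟩ hab
      simp only [Finset.mem_filter, Finset.mem_univ, true_and] at hab
      simp [hab]
    · simp
  rw [h2, h3, ← Finset.sum_union, ← Finset.sum_union]
  · congr 1
    ext q
    simp only [Finset.mem_univ, Finset.mem_union, Finset.mem_filter, true_and, true_iff]
    rcases lt_trichotomy q.1 q.2 with h | h | h
    · exact Or.inl (Or.inl h)
    · exact Or.inr h
    · exact Or.inl (Or.inr h)
  · rw [Finset.disjoint_left]
    intro q hq hq'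
    simp only [Finset.mem_union, Finset.mem_filter, Finset.mem_univ, true_and] at hq hq'
    rcases hq with hq | hq
    · exact absurd hq' hq.ne
    · exact absurd hq' hq.ne'
  · rw [Finset.disjoint_left]
    intro q hq hq'
    simp only [Finset.mem_filter, Finset.mem_univ, true_and] at hq hq'
    exact absurd hq hq'.not_gt

lemma card_pairs (n : ℕ) :
    2 * Fintype.card {q : Fin n × Fin n // q.1 < q.2} + n = n * n := by
  have := sum_split n (fun _ => 1)
  simp only [Finset.sum_const, smul_eq_mul, mul_one, Finset.card_univ, Fintype.card_prod,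
    Fintype.card_fin] at this
  omega

/-- the alternating forms which vanish on `E` -/
def Forms (k : Type*) {V : Type*} [Field k] [AddCommGroup V] [Module k V] (E : V → V → Prop) :
    Submodule k (V →ₗ[k] V →ₗ[k] k) where
  carrier := {β | (∀ x, β x x = 0) ∧ ∀ x y, E x y → β x y = 0}
  add_mem' := by
    rintro a b ⟨ha, ha'⟩ ⟨hb, hb'⟩
    exact ⟨fun x => by simp [ha x, hb x], fun x y h => by simp [ha' x y h, hb' x y h]⟩
  zero_mem' := ⟨fun f => by simp, fun f => by simp⟩
  smul_mem' := by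
    rintro c a ⟨ha, ha'⟩
    exact ⟨fun x => by simp [ha x], fun x y h => by simp [ha' x y h]⟩

lemma mem_Forms {E : V → V → Prop} {β : V →ₗ[k] V →ₗ[k] k} :
    β ∈ Forms k E ↔ (∀ x, β x x = 0) ∧ ∀ x y, E x y → β x y = 0 := Iff.rfl

omit [FiniteDimensional k V] in
lemma form_skew {β : V →ₗ[k] V →ₗ[k] k} (h : ∀ x, β x x = 0) (x y : V) : β y x = - β x y := by
  have h1 := h (x + y)
  simp only [map_add, LinearMap.add_apply, h x, h y, zero_add, add_zero] at h1
  exact eq_neg_of_add_eq_zero_left (by rw [add_comm]; rw [add_comm] at h1; exact h1)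

omit [FiniteDimensional k V] in
lemma form_expand {n : ℕ} (b : Basis (Fin n) k V) {β : V →ₗ[k] V →ₗ[k] k}
    (h : ∀ x, β x x = 0) (x y : V) :
    β x y = ∑ q : {q : Fin n × Fin n // q.1 < q.2}, β (b q.1.1) (b q.1.2) *
      b.coord q.1.2 (w x y (b.coord q.1.1)) := by
  have h1 : β x y = ∑ q : Fin n × Fin n, b.coord q.1 x * (b.coord q.2 y * β (b q.1) (b q.2)) := by
    conv_lhs => rw [← b.sum_repr x, ← b.sum_repr y]
    simp only [map_sum, map_smul, LinearMap.sum_apply, LinearMap.smul_apply, smul_eq_mul]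
    rw [Fintype.sum_prod_type, Finset.sum_comm]
    refine Finset.sum_congr rfl fun i _ => ?_
    rw [Finset.mul_sum]
    refine Finset.sum_congr rfl fun j _ => ?_
    simp only [Basis.coord_apply]
    ring
  rw [h1, sum_split]
  have h2 : ∑ i : Fin n, b.coord i x * (b.coord i y * β (b i) (b i)) = 0 :=
    Finset.sum_eq_zero fun i _ => by rw [h]; ring
  rw [h2, add_zero]
  refine Finset.sum_congr rfl fun q _ => ?_
  rw [w_apply]
  simp only [Prod.fst_swap, Prod.snd_swap, map_sub, map_smul, smul_eq_mul,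
    form_skew h (b q.1.1) (b q.1.2)]
  ring

/-- **duality**: the dimensions of the space of relations and of the space of forms -/
theorem forms_le {n : ℕ} (hn : finrank k V = n) (E : V → V → Prop) :
    2 * (finrank k (Forms k E) + finrank k (Rel (k := k) E ⊤)) + n ≤ n * n := by
  set b : Basis (Fin n) k V := finBasisOfFinrankEq k V hn
  set ι := {q : Fin n × Fin n // q.1 < q.2}
  -- coordinates of the alternating maps
  let cA : (Dual k V →ₗ[k] V) →ₗ[k] (ι → k) :=
    { toFun := fun φ q => b.coord q.1.2 (φ (b.coord q.1.1))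
      map_add' := fun φ ψ => by ext q; simp
      map_smul' := fun c φ => by ext q; simp }
  have hcA : ∀ φ ∈ W (⊤ : Submodule k V), cA φ = 0 → φ = 0 := by
    intro φ hφ h0
    have h1 := (mem_W.1 hφ).1
    have h2 : ∀ i j : Fin n, b.coord j (φ (b.coord i)) = 0 := by
      intro i j
      rcases lt_trichotomy i j with h | h | h
      · exact congrFun h0 ⟨(i, j), h⟩
      · rw [h, h1]
      · rw [skew h1, neg_eq_zero]
        exact congrFun h0 ⟨(j, i), h⟩
    have h3 : ∀ i, φ (b.coord i) = 0 := fun i => by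
      rw [← b.forall_coord_eq_zero_iff]
      exact h2 i
    refine LinearMap.ext fun f => ?_
    rw [← b.sum_dual_apply_smul_coord f]
    simp only [map_sum, map_smul, h3, smul_zero, Finset.sum_const_zero, LinearMap.zero_apply]
  have e1 : finrank k ((Rel (k := k) E ⊤).map cA) = finrank k (Rel (k := k) E ⊤) := by
    rw [← LinearMap.range_domRestrict]
    refine LinearMap.finrank_range_of_inj ?_
    rw [injective_iff_map_eq_zero]
    rintro ⟨φ, hφ⟩ h0
    have := hcA φ (Rel_le E ⊤ hφ) h0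
    exact Subtype.ext this
  let Ψ : Forms k E →ₗ[k] Dual k (ι → k) :=
    { toFun := fun β => ∑ q : ι, (β : V →ₗ[k] V →ₗ[k] k) (b q.1.1) (b q.1.2) • LinearMap.proj q
      map_add' := fun β γ => by
        rw [← Finset.sum_add_distrib]
        exact Finset.sum_congr rfl fun q _ => by simp [add_smul]
      map_smul' := fun c β => by
        rw [Finset.smul_sum]
        exact Finset.sum_congr rfl fun q _ => by simp [mul_smul] }
  have hΨ : ∀ β : Forms k E, ∀ x y, Ψ β (cA (w x y)) = (β : V →ₗ[k] V →ₗ[k] k) x y := by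
    intro β x y
    rw [form_expand b (mem_Forms.1 β.2).1 x y]
    change (∑ q : ι, (β : V →ₗ[k] V →ₗ[k] k) (b q.1.1) (b q.1.2) •
      (LinearMap.proj q : (ι → k) →ₗ[k] k)) (cA (w x y)) = _
    rw [LinearMap.sum_apply]
    exact Finset.sum_congr rfl fun q _ => rfl
  have hann : ∀ β : Forms k E, Ψ β ∈ ((Rel (k := k) E ⊤).map cA).dualAnnihilator := by
    intro β
    rw [mem_dualAnnihilator]
    rintro v ⟨φ, hφ, rfl⟩
    have h1 : Rel (k := k) E ⊤ ≤ LinearMap.ker (Ψ β ∘ₗ cA) := by
      unfold Rel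
      rw [span_le]
      rintro φ ⟨x, -, y, -, hE, rfl⟩
      rw [SetLike.mem_coe, LinearMap.mem_ker, LinearMap.comp_apply, hΨ]
      exact (mem_Forms.1 β.2).2 x y hE
    exact h1 hφ
  have hinj : Function.Injective (Ψ.codRestrict _ hann) := by
    intro β γ h0
    have h1 : Ψ β = Ψ γ := congrArg Subtype.val h0
    apply Subtype.ext
    refine LinearMap.ext fun x => LinearMap.ext fun y => ?_
    rw [← hΨ, h1, hΨ]
  have a1 := LinearMap.finrank_le_finrank_of_injective hinj
  have a2 := Subspace.finrank_add_finrank_dualAnnihilator_eq ((Rel (k := k) E ⊤).map cA)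
  rw [e1, finrank_pi, ] at a2
  have a3 := card_pairs n
  change 2 * Fintype.card ι + n = n * n at a3
  omega

end Pool.Agent.N908.FR
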