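import Pool.Agent.N908.FR.LA

set_option autoImplicit false

open Module Submodule

namespace Pool.Agent.N908.FR

variable {k V : Type*} [Field k] [AddCommGroup V] [Module k V] [FiniteDimensional k V]

/-- `K` is spanned in a connected way by the tensors in `R` -/
def Good (K : Submodule k V) (R : Submodule k (Dual k V →ₗ[k] V)) : Prop :=
  ∀ I ≤ K, I ≠ ⊥ → finrank k K + finrank k (W I) ≤ finrank k I + finrank k (R ⊔ W I : Submodule k (Dual k V →ₗ[k] V))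

lemma Good.mono {K : Submodule k V} {R R' : Submodule k (Dual k V →ₗ[k] V)} (h : Good K R)
    (hR : R ≤ R') : Good K R' := fun I hI hI0 =>
  (h I hI hI0).trans (Nat.add_le_add_left (finrank_mono (sup_le_sup_right hR _)) _)

/-- modular law for ranks -/
lemma fr_sup_inf (A B : Submodule k (Dual k V →ₗ[k] V)) :
    finrank k (A ⊔ B : Submodule k (Dual k V →ₗ[k] V)) + finrank k (A ⊓ B : Submodule k (Dual k V →ₗ[k] V))
      = finrank k A + finrank k B := finrank_sup_add_finrank_inf_eq A B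

lemma fr_sup_inf' (A B : Submodule k V) :
    finrank k (A ⊔ B : Submodule k V) + finrank k (A ⊓ B : Submodule k V) = finrank k A + finrank k B :=
  finrank_sup_add_finrank_inf_eq A B

lemma fr_pos {K : Submodule k V} (h : K ≠ ⊥) : 1 ≤ finrank k K := by
  rw [Nat.one_le_iff_ne_zero]
  intro h0
  exact h (finrank_eq_zero.1 h0)

lemma fr_W_bot : finrank k (W (⊥ : Submodule k V)) = 0 := by
  rw [W_bot]
  exact finrank_bot k _

/-- a good subspace has at most one dimension more than its relations -/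
lemma Good.le {K : Submodule k V} {R : Submodule k (Dual k V →ₗ[k] V)} (h : Good K R)
    (hK : K ≠ ⊥) : finrank k K ≤ 1 + finrank k R := by
  obtain ⟨x, hx, hx0⟩ := exists_mem_ne_zero_of_ne_bot hK
  have h1 := h (span k {x}) ((span_singleton_le_iff_mem _ _).2 hx) (by
    rwa [Ne, span_singleton_eq_bot])
  rw [W_line, sup_bot_eq, finrank_bot, finrank_span_singleton hx0] at h1
  exact h1

/-- the inequality of `Good` for subspaces not contained in `K` -/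
lemma Good.inter {K I : Submodule k V} {R : Submodule k (Dual k V →ₗ[k] V)} (h : Good K R)
    (hR : R ≤ W K) (hI : I ⊓ K ≠ ⊥) :
    finrank k K + finrank k (W I) ≤ finrank k (I ⊓ K : Submodule k V) +
      finrank k (R ⊔ W I : Submodule k (Dual k V →ₗ[k] V)) := by
  have h1 := h (I ⊓ K) inf_le_right hI
  have h2 : R ⊓ W I = R ⊓ W (I ⊓ K) := by
    rw [← W_inf, inf_comm (W I), ← inf_assoc, inf_eq_left.2 hR]
  have h3 := fr_sup_inf R (W I)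
  have h4 := fr_sup_inf R (W (I ⊓ K))
  rw [h2] at h3
  omega

/-- the case of a trivial intersection -/
lemma Good.disj {K I : Submodule k V} {R : Submodule k (Dual k V →ₗ[k] V)} (h : Good K R)
    (hR : R ≤ W K) (hK : K ≠ ⊥) (hI : I ⊓ K = ⊥) :
    finrank k K + finrank k (W I) ≤ 1 + finrank k (R ⊔ W I : Submodule k (Dual k V →ₗ[k] V)) := by
  have h1 := h.le hK
  have h2 : R ⊓ W I = ⊥ := by
    rw [eq_bot_iff]
    calc R ⊓ W I ≤ W K ⊓ W I := inf_le_inf_right _ hR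
      _ = ⊥ := by rw [W_inf, inf_comm, hI, W_bot]
  have h3 := fr_sup_inf R (W I)
  rw [h2, finrank_bot] at h3
  omega

/-- submodularity -/
lemma fr_sub {R X Y : Submodule k (Dual k V →ₗ[k] V)} (h : X ≤ Y) :
    finrank k (R ⊔ Y : Submodule k (Dual k V →ₗ[k] V)) + finrank k X ≤
      finrank k (R ⊔ X : Submodule k (Dual k V →ₗ[k] V)) + finrank k Y := by
  have h1 := fr_sup_inf R X
  have h2 := fr_sup_inf R Y
  have h3 : finrank k (R ⊓ X : Submodule k (Dual k V →ₗ[k] V)) ≤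
    finrank k (R ⊓ Y : Submodule k (Dual k V →ₗ[k] V)) := finrank_mono (inf_le_inf_left _ h)
  omega

lemma goodB_half {K₁ K₂ I : Submodule k V} {R₁ R₂ : Submodule k (Dual k V →ₗ[k] V)}
    (h₁ : Good K₁ R₁) (h₂ : Good K₂ R₂) (hR₁ : R₁ ≤ W K₁) (hR₂ : R₂ ≤ W K₂)
    (hJ : K₁ ⊓ K₂ ≠ ⊥) (hI : I ≤ K₁ ⊔ K₂) (hI1 : I ⊓ K₁ ≠ ⊥) :
    finrank k (K₁ ⊔ K₂ : Submodule k V) + finrank k (W I) ≤
      finrank k I + finrank k (R₁ ⊔ R₂ ⊔ W I : Submodule k (Dual k V →ₗ[k] V)) := by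
  have a1 := h₁.inter hR₁ hI1
  have hS : (I ⊔ K₁) ⊓ K₂ ≠ ⊥ := fun h0 => hJ (by
    rw [eq_bot_iff] at h0 ⊢
    exact (inf_le_inf_right _ le_sup_right).trans h0)
  have a2 := h₂.inter hR₂ hS
  have hX : R₁ ⊔ W I ≤ W (I ⊔ K₁) :=
    sup_le (hR₁.trans (W_mono le_sup_right)) (W_mono le_sup_left)
  have a3 := fr_sub (R := R₂) hX
  have e1 : R₂ ⊔ (R₁ ⊔ W I) = R₁ ⊔ R₂ ⊔ W I := by
    rw [← sup_assoc, sup_comm R₂ R₁]
  rw [e1] at a3
  have a4 := fr_sup_inf' I K₁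
  have a5 := fr_sup_inf' (I ⊔ K₁) K₂
  have e2 : I ⊔ K₁ ⊔ K₂ = K₁ ⊔ K₂ := by
    rw [sup_assoc, sup_eq_right.2 hI]
  rw [e2] at a5
  omega

/-- two good subspaces which meet -/
lemma goodB {K₁ K₂ : Submodule k V} {R₁ R₂ : Submodule k (Dual k V →ₗ[k] V)}
    (h₁ : Good K₁ R₁) (h₂ : Good K₂ R₂) (hR₁ : R₁ ≤ W K₁) (hR₂ : R₂ ≤ W K₂)
    (hJ : K₁ ⊓ K₂ ≠ ⊥) : Good (K₁ ⊔ K₂) (R₁ ⊔ R₂) := by
  intro I hI hI0
  by_cases hI1 : I ⊓ K₁ = ⊥
  swap
  · exact goodB_half h₁ h₂ hR₁ hR₂ hJ hI hI1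
  by_cases hI2 : I ⊓ K₂ = ⊥
  swap
  · have := goodB_half h₂ h₁ hR₂ hR₁ (by rwa [inf_comm]) (by rwa [sup_comm]) hI2
    rwa [sup_comm K₂, sup_comm R₂] at this
  have hK1 : K₁ ≠ ⊥ := fun h0 => hJ (by rw [h0, bot_inf_eq])
  have a1 := h₁.disj hR₁ hK1 hI1
  -- the second part
  have hle : R₂ ⊓ (R₁ ⊔ W I) ≤ R₂ ⊓ W (K₁ ⊓ K₂) := by
    rintro φ ⟨h3, h4⟩
    refine ⟨h3, ?_⟩
    obtain ⟨α, hα, β, hβ, rfl⟩ := mem_sup.1 h4
    obtain ⟨h5, h6⟩ := split (A := K₁) (B := I) (T := K₂) (by rwa [inf_comm]) (hR₁ hα) hβ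
      (hR₂ h3)
    rw [inf_comm K₂ I, hI2, W_bot, mem_bot] at h6
    rw [h6, add_zero, inf_comm]
    exact h5
  have a2 := h₂ (K₁ ⊓ K₂) inf_le_right hJ
  have a3 := fr_sup_inf R₂ (W (K₁ ⊓ K₂))
  have a4 := fr_sup_inf R₂ (R₁ ⊔ W I)
  have a5 : finrank k (R₂ ⊓ (R₁ ⊔ W I) : Submodule k (Dual k V →ₗ[k] V)) ≤
    finrank k (R₂ ⊓ W (K₁ ⊓ K₂) : Submodule k (Dual k V →ₗ[k] V)) := finrank_mono hle
  have e1 : R₂ ⊔ (R₁ ⊔ W I) = R₁ ⊔ R₂ ⊔ W I := by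
    rw [← sup_assoc, sup_comm R₂ R₁]
  rw [e1] at a4
  have a6 := fr_sup_inf' K₁ K₂
  have a7 := fr_pos hI0
  omega

lemma fr_sup_bot {K₁ K₂ : Submodule k V} (h : K₁ ⊓ K₂ = ⊥) :
    finrank k (K₁ ⊔ K₂ : Submodule k V) = finrank k K₁ + finrank k K₂ := by
  have := fr_sup_inf' K₁ K₂
  rwa [h, finrank_bot, add_zero] at this

/-- adding the two pieces -/
lemma fr_two {K₁ K₂ I : Submodule k V} {R₁ R₂ : Submodule k (Dual k V →ₗ[k] V)}
    (hR₁ : R₁ ≤ W K₁) (hR₂ : R₂ ≤ W K₂) (hJ : K₁ ⊓ K₂ = ⊥) :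
    finrank k (R₁ ⊔ W I : Submodule k (Dual k V →ₗ[k] V)) +
      finrank k (R₂ ⊔ W I : Submodule k (Dual k V →ₗ[k] V)) ≤
      finrank k (R₁ ⊔ R₂ ⊔ W I : Submodule k (Dual k V →ₗ[k] V)) + finrank k (W I) := by
  have a1 := fr_sup_inf R₁ (W I)
  have a2 := fr_sup_inf R₂ (W I)
  have a3 := fr_sup_inf (R₁ ⊔ R₂) (W I)
  have a4 := fr_sup_inf R₁ R₂
  have e1 : R₁ ⊓ R₂ = ⊥ := by
    rw [eq_bot_iff]
    calc R₁ ⊓ R₂ ≤ W K₁ ⊓ W K₂ := inf_le_inf hR₁ hR₂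
      _ = ⊥ := by rw [W_inf, hJ, W_bot]
  rw [e1, finrank_bot, add_zero] at a4
  have hle : (R₁ ⊔ R₂) ⊓ W I ≤ (R₁ ⊓ W I) ⊔ (R₂ ⊓ W I) := by
    rintro φ ⟨h3, h4⟩
    obtain ⟨α, hα, β, hβ, rfl⟩ := mem_sup.1 h3
    obtain ⟨h5, h6⟩ := split (A := K₁) (B := K₂) (T := I) hJ (hR₁ hα) (hR₂ hβ) h4
    exact add_mem (mem_sup_left ⟨hα, W_mono inf_le_left h5⟩)
      (mem_sup_right ⟨hβ, W_mono inf_le_left h6⟩)
  have a5 := finrank_mono hle
  have a6 := finrank_add_le_finrank_add_finrank (R₁ ⊓ W I) (R₂ ⊓ W I)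
  change finrank k ((R₁ ⊓ W I) ⊔ (R₂ ⊓ W I) : Submodule k (Dual k V →ₗ[k] V)) ≤ _ at a6
  omega

/-- two disjoint good subspaces which are joined by a relation -/
lemma goodA {K₁ K₂ : Submodule k V} {R₁ R₂ R : Submodule k (Dual k V →ₗ[k] V)}
    (h₁ : Good K₁ R₁) (h₂ : Good K₂ R₂) (hR₁ : R₁ ≤ W K₁) (hR₂ : R₂ ≤ W K₂)
    (hJ : K₁ ⊓ K₂ = ⊥) {x y : V} (hx : x ∈ K₁) (hy : y ∈ K₂) (hx0 : x ≠ 0) (hy0 : y ≠ 0)
    (hR : R₁ ⊔ R₂ ≤ R) (hw : w x y ∈ R) : Good (K₁ ⊔ K₂) R := by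
  intro I hI hI0
  have hK1 : K₁ ≠ ⊥ := fun h0 => hx0 ((mem_bot k).1 (h0 ▸ hx))
  have hK2 : K₂ ≠ ⊥ := fun h0 => hy0 ((mem_bot k).1 (h0 ▸ hy))
  rw [fr_sup_bot hJ]
  have b1 := fr_two (I := I) hR₁ hR₂ hJ
  have b2 : finrank k (R₁ ⊔ R₂ ⊔ W I : Submodule k (Dual k V →ₗ[k] V)) ≤
    finrank k (R ⊔ W I : Submodule k (Dual k V →ₗ[k] V)) := finrank_mono (sup_le_sup_right hR _)
  -- strict inequality if `w x y` is not in the smaller space
  have b3 : w x y ∉ R₁ ⊔ R₂ ⊔ W I →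
      finrank k (R₁ ⊔ R₂ ⊔ W I : Submodule k (Dual k V →ₗ[k] V)) + 1 ≤
        finrank k (R ⊔ W I : Submodule k (Dual k V →ₗ[k] V)) := by
    intro h
    refine finrank_lt_finrank_of_lt (lt_of_le_of_ne (sup_le_sup_right hR _) fun he => h ?_)
    rw [he]
    exact mem_sup_left hw
  have c1 : finrank k (I ⊓ K₁ : Submodule k V) + finrank k (I ⊓ K₂ : Submodule k V) ≤ finrank k I := by
    have h1 := fr_sup_inf' (I ⊓ K₁) (I ⊓ K₂)
    have h2 : (I ⊓ K₁) ⊓ (I ⊓ K₂) = ⊥ := by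
      rw [eq_bot_iff, ← hJ]
      exact inf_le_inf inf_le_right inf_le_right
    have h3 : finrank k ((I ⊓ K₁) ⊔ (I ⊓ K₂) : Submodule k V) ≤ finrank k I :=
      finrank_mono (sup_le inf_le_left inf_le_left)
    rw [h2, finrank_bot] at h1
    omega
  have hnot : W I ≤ W K₁ ⊔ W K₂ → w x y ∉ R₁ ⊔ R₂ ⊔ W I := fun h h3 =>
    w_not_mem hJ hx hy hx0 hy0
      ((sup_le (sup_le (hR₁.trans le_sup_left) (hR₂.trans le_sup_right)) h) h3)
  by_cases hI1 : I ⊓ K₁ = ⊥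
  · have a1 := h₁.disj hR₁ hK1 hI1
    by_cases hI2 : I ⊓ K₂ = ⊥
    · have a2 := h₂.disj hR₂ hK2 hI2
      by_cases hi : 2 ≤ finrank k I
      · omega
      · have hi1 : finrank k I = 1 := by
          have := fr_pos hI0
          omega
        obtain ⟨v, hv, hv0⟩ := exists_mem_ne_zero_of_ne_bot hI0
        have hIv : I = span k {v} := by
          symm
          apply eq_of_le_of_finrank_eq ((span_singleton_le_iff_mem _ _).2 hv)
          rw [hi1, finrank_span_singleton hv0]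
        have := b3 (hnot (by rw [hIv, W_line]; exact bot_le))
        omega
    · have a2 := h₂.inter hR₂ hI2
      by_cases hi : finrank k (I ⊓ K₂ : Submodule k V) < finrank k I
      · omega
      · have hIK : I ⊓ K₂ = I := eq_of_le_of_finrank_le inf_le_left (by omega)
        have := b3 (hnot ((W_mono (inf_eq_left.1 hIK)).trans le_sup_right))
        rw [hIK] at a2
        omega
  · have a1 := h₁.inter hR₁ hI1
    by_cases hI2 : I ⊓ K₂ = ⊥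
    · have a2 := h₂.disj hR₂ hK2 hI2
      by_cases hi : finrank k (I ⊓ K₁ : Submodule k V) < finrank k I
      · omega
      · have hIK : I ⊓ K₁ = I := eq_of_le_of_finrank_le inf_le_left (by omega)
        have := b3 (hnot ((W_mono (inf_eq_left.1 hIK)).trans le_sup_left))
        rw [hIK] at a1
        omega
    · have a2 := h₂.inter hR₂ hI2
      omega

end Pool.Agent.N908.FR
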